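import Mathlib

/-!
# Fixed point property for cones versus growth
-/

namespace Pool.Agent.Results.MP_587aff_al.ConesGrowth

open Filter Topology Pointwise

/-- `h` is dominated by (finitely many translates of) `f`. -/
def Dom {G : Type*} [Group G] (f h : G → ℝ) : Prop :=
  ∃ (S : Finset G) (c : ℝ), ∀ x, |h x| ≤ c * ∑ s ∈ S, f (s⁻¹ * x)

/-- The functional criterion equivalent to the fixed point property for cones. -/
def ConeProperty (G : Type*) [Group G] : Prop :=
  ∀ f : G → ℝ, (∀ x, 0 ≤ f x) → (∃ M : ℝ, ∀ x, f x ≤ M) → (∃ x, f x ≠ 0) →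
    ∃ φ : (G → ℝ) → ℝ,
      (∀ h k : G → ℝ, Dom f h → Dom f k → φ (h + k) = φ h + φ k) ∧
      (∀ (a : ℝ) (h : G → ℝ), Dom f h → φ (a • h) = a * φ h) ∧
      (∀ h : G → ℝ, Dom f h → (∀ x, 0 ≤ h x) → 0 ≤ φ h) ∧
      (∀ (g : G) (h : G → ℝ), Dom f h → φ (fun x => h (g⁻¹ * x)) = φ h) ∧
      φ f = 1

/-- Every finite subset of `G` (hence every finitely generated subgroup) has subexponential
growth. -/
def LocSubexp (G : Type*) [Group G] : Prop :=
  ∀ (S : Finset G) (c : ℝ), 1 < c → ∀ᶠ n : ℕ in atTop, (((S : Set G) ^ n).ncard : ℝ) ≤ c ^ n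

section Sphere

variable {G : Type*} [Group G] (S : Finset G)

/-- Elements of word length exactly `n` with respect to `S`. -/
def sph (n : ℕ) : Set G := {g | g ∈ (S : Set G) ^ n ∧ ∀ m < n, g ∉ (S : Set G) ^ m}

variable {S}

lemma pow_finite (n : ℕ) : ((S : Set G) ^ n).Finite := by
  induction n with
  | zero => rw [pow_zero]; exact Set.finite_one
  | succ n ih => rw [pow_succ]; exact ih.mul S.finite_toSet

lemma sph_finite (n : ℕ) : (sph S n).Finite := (pow_finite n).subset fun _ h => h.1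

lemma sph_unique {g : G} {m n : ℕ} (hm : g ∈ sph S m) (hn : g ∈ sph S n) : m = n := by
  rcases lt_trichotomy m n with h | h | h
  · exact absurd hm.1 (hn.2 m h)
  · exact h
  · exact absurd hn.1 (hm.2 n h)

lemma one_mem_sph : (1 : G) ∈ sph S 0 := by
  refine ⟨?_, fun m hm => absurd hm (Nat.not_lt_zero _)⟩
  rw [pow_zero]; exact Set.mem_one.mpr rfl

lemma eq_one_of_sph {g : G} (h : g ∈ sph S 0) : g = 1 := by
  have := h.1
  rw [pow_zero] at this
  exact Set.mem_one.mp this

lemma exists_letter {h : G} {n : ℕ} (hh : h ∈ sph S (n + 1)) : ∃ s ∈ S, s⁻¹ * h ∈ sph S n := by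
  have h1 := hh.1
  rw [pow_succ'] at h1
  obtain ⟨s, hs, g, hg, rfl⟩ := Set.mem_mul.mp h1
  refine ⟨s, hs, ?_⟩
  rw [inv_mul_cancel_left]
  refine ⟨hg, fun m hm hg' => ?_⟩
  refine hh.2 (m + 1) (by omega) ?_
  rw [pow_succ']
  exact Set.mul_mem_mul hs hg'

variable (S) in
/-- A choice of first letter. -/
noncomputable def letter (h : G) : G :=
  open Classical in
  if hh : ∃ s ∈ S, ∃ n, h ∈ sph S (n + 1) ∧ s⁻¹ * h ∈ sph S n then hh.choose else 1

variable (S) in
/-- The parent of an element. -/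
noncomputable def par (h : G) : G := (letter S h)⁻¹ * h

lemma letter_spec {h : G} {n : ℕ} (hh : h ∈ sph S (n + 1)) : letter S h ∈ S ∧ par S h ∈ sph S n := by
  have hex : ∃ s ∈ S, ∃ n, h ∈ sph S (n + 1) ∧ s⁻¹ * h ∈ sph S n := by
    obtain ⟨s, hs, h2⟩ := exists_letter hh
    exact ⟨s, hs, n, hh, h2⟩
  have h3 : letter S h = hex.choose := by
    unfold letter
    rw [dif_pos hex]
  obtain ⟨h4, m, h5, h6⟩ := hex.choose_spec
  have h7 : m = n := by
    have := sph_unique h5 hh
    omega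
  subst h7
  refine ⟨by rw [h3]; exact h4, ?_⟩
  unfold par
  rw [h3]; exact h6

lemma par_iter {j k : ℕ} {h : G} (hh : h ∈ sph S (j + k)) : (par S)^[k] h ∈ sph S j := by
  induction k generalizing h with
  | zero => exact hh
  | succ k ih =>
    rw [Function.iterate_succ_apply]
    exact ih (letter_spec (n := j + k) hh).2

lemma iter_mem {j k : ℕ} {h : G} (hh : h ∈ sph S (j + k)) :
    h * ((par S)^[k] h)⁻¹ ∈ (S : Set G) ^ k := by
  induction k generalizing h with
  | zero => simp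
  | succ k ih =>
    rw [Function.iterate_succ_apply, pow_succ']
    have h1 := letter_spec (n := j + k) hh
    have h2 := ih h1.2
    refine Set.mem_mul.mpr ⟨letter S h, h1.1, _, h2, ?_⟩
    unfold par
    group

lemma mul_inv_mem_sph {j k : ℕ} {h g : G} (hh : h ∈ sph S (j + k)) (hg : g ∈ sph S j)
    (hk : h * g⁻¹ ∈ (S : Set G) ^ k) : h * g⁻¹ ∈ sph S k := by
  refine ⟨hk, fun m hm hc => hh.2 (m + j) (by omega) ?_⟩
  rw [pow_add]
  refine Set.mem_mul.mpr ⟨_, hc, g, hg.1, ?_⟩
  group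

variable (S) in
/-- Number of descendants of `g` (at level `j`) at level `j + k`. -/
noncomputable def desc (j k : ℕ) (g : G) : ℕ := {h | h ∈ sph S (j + k) ∧ (par S)^[k] h = g}.ncard

lemma desc_le {j k : ℕ} {g : G} (hg : g ∈ sph S j) : desc S j k g ≤ (sph S k).ncard := by
  refine Set.ncard_le_ncard_of_injOn (fun h => h * g⁻¹) ?_ ?_ (sph_finite k)
  · rintro h ⟨h1, h2⟩
    refine mul_inv_mem_sph h1 hg ?_
    rw [← h2]; exact iter_mem h1
  · intro a _ b _ hab
    exact mul_right_cancel hab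

lemma desc_one (n : ℕ) : desc S 0 n (1 : G) = (sph S n).ncard := by
  unfold desc
  congr 1
  ext h
  constructor
  · rintro ⟨h1, _⟩
    rw [zero_add] at h1; exact h1
  · intro h1
    have h2 : h ∈ sph S (0 + n) := by rw [zero_add]; exact h1
    exact ⟨h2, eq_one_of_sph (par_iter h2)⟩

lemma desc_succ {j k : ℕ} {g : G} :
    desc S j (k + 1) g = ∑ s ∈ S, (open Classical in
      if s * g ∈ sph S (j + 1) ∧ letter S (s * g) = s then desc S (j + 1) k (s * g) else 0) := by
  classical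
  have hfin : {h | h ∈ sph S (j + (k + 1)) ∧ (par S)^[k + 1] h = g}.Finite :=
    (sph_finite _).subset fun _ h => h.1
  have h0 : j + (k + 1) = (j + 1) + k := by omega
  unfold desc
  rw [Set.ncard_eq_toFinset_card _ hfin,
    Finset.card_eq_sum_card_fiberwise (f := fun h => letter S ((par S)^[k] h)) (t := S)]
  · refine Finset.sum_congr rfl fun s hs => ?_
    split_ifs with hc
    · have hfin2 : {h | h ∈ sph S (j + 1 + k) ∧ (par S)^[k] h = s * g}.Finite :=
        (sph_finite _).subset fun _ h => h.1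
      rw [Set.ncard_eq_toFinset_card _ hfin2]
      congr 1
      ext h
      rw [Finset.mem_filter, Set.Finite.mem_toFinset, Set.Finite.mem_toFinset]
      constructor
      · rintro ⟨⟨h1, h2⟩, h3⟩
        refine ⟨by rw [← h0]; exact h1, ?_⟩
        rw [Function.iterate_succ_apply'] at h2
        rw [← h2, ← h3]
        unfold par
        group
      · rintro ⟨h1, h2⟩
        refine ⟨⟨by rw [h0]; exact h1, ?_⟩, ?_⟩
        · rw [Function.iterate_succ_apply', h2]
          unfold par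
          rw [hc.2]; group
        · rw [h2]; exact hc.2
    · rw [Finset.card_eq_zero, Finset.filter_eq_empty_iff]
      intro h hh h3
      rw [Set.Finite.mem_toFinset] at hh
      obtain ⟨h1, h2⟩ := hh
      apply hc
      rw [h0] at h1
      have h4 := par_iter h1
      rw [Function.iterate_succ_apply'] at h2
      have h5 : s * g = (par S)^[k] h := by
        rw [← h2, ← h3]; unfold par; group
      rw [h5]
      exact ⟨h4, h3⟩
  · intro h hh
    rw [Finset.mem_coe, Set.Finite.mem_toFinset] at hh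
    obtain ⟨h1, h2⟩ := hh
    rw [h0] at h1
    exact (letter_spec (par_iter h1)).1

end Sphere

section Records

lemma exists_records {a p : ℕ → ℝ} {l c : ℝ} (hl : 1 < l) (hlc : l < c)
    (hp : ∀ n, p n ≤ ∑ m ∈ Finset.range (n + 1), a m) (hc : ∃ᶠ n in atTop, c ^ n < p n) :
    ∃ᶠ n in atTop, ∀ m ≤ n, a m / l ^ m ≤ a n / l ^ n := by
  by_contra hcon
  rw [not_frequently, eventually_atTop] at hcon
  obtain ⟨N, hN⟩ := hcon
  have hl0 : 0 < l := by linarith
  obtain ⟨B, hB⟩ : ∃ B : ℝ, ∀ m ≤ N, a m / l ^ m ≤ B := by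
    refine ⟨∑ m ∈ Finset.range (N + 1), |a m / l ^ m|, fun m hm => ?_⟩
    refine (le_abs_self _).trans ?_
    exact Finset.single_le_sum (f := fun m => |a m / l ^ m|) (fun i _ => abs_nonneg _)
      (Finset.mem_range.mpr (by omega))
  have hB' : ∀ n, a n / l ^ n ≤ B := by
    intro n
    induction n using Nat.strong_induction_on with
    | _ n ih =>
      rcases le_or_gt n N with h | h
      · exact hB n h
      · have h1 := hN n h.le
        push Not at h1
        obtain ⟨m, hm, hm'⟩ := h1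
        have h2 : m < n := lt_of_le_of_ne hm (by rintro rfl; exact lt_irrefl _ hm')
        exact hm'.le.trans (ih m h2)
  have hB0 : ∀ n, a n ≤ B * l ^ n := by
    intro n
    have h1 := hB' n
    rwa [div_le_iff₀ (pow_pos hl0 n)] at h1
  have hpn : ∀ n, p n ≤ |B| * l / (l - 1) * l ^ n := by
    intro n
    calc p n ≤ ∑ m ∈ Finset.range (n + 1), a m := hp n
      _ ≤ ∑ m ∈ Finset.range (n + 1), |B| * l ^ m := by
          refine Finset.sum_le_sum fun m _ => (hB0 m).trans ?_
          exact mul_le_mul_of_nonneg_right (le_abs_self B) (pow_pos hl0 m).le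
      _ = |B| * ((l ^ (n + 1) - 1) / (l - 1)) := by
          rw [← Finset.mul_sum, geom_sum_eq hl.ne']
      _ ≤ |B| * (l ^ (n + 1) / (l - 1)) := by
          refine mul_le_mul_of_nonneg_left ?_ (abs_nonneg B)
          exact div_le_div_of_nonneg_right (by linarith) (by linarith)
      _ = |B| * l / (l - 1) * l ^ n := by rw [pow_succ]; ring
  have htend : Tendsto (fun n : ℕ => (c / l) ^ n) atTop atTop :=
    tendsto_pow_atTop_atTop_of_one_lt ((one_lt_div hl0).mpr hlc)
  have hev : ∀ᶠ n in atTop, |B| * l / (l - 1) ≤ (c / l) ^ n :=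
    htend.eventually_ge_atTop _
  obtain ⟨n, hn1, hn2⟩ := (hc.and_eventually hev).exists
  have h3 : |B| * l / (l - 1) * l ^ n ≤ c ^ n := by
    rw [div_pow, le_div_iff₀ (pow_pos hl0 n)] at hn2
    exact hn2
  linarith [hpn n]

end Records

section Forward

variable {G : Type*} [Group G] {S : Finset G}

variable (S) in
/-- The finite-level weight function. -/
noncomputable def Fn (l : ℝ) (n : ℕ) (g : G) : ℝ :=
  open Classical in
  if h : ∃ j, j ≤ n ∧ g ∈ sph S j then
    l ^ h.choose * desc S h.choose (n - h.choose) g / (sph S n).ncard else 0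

lemma Fn_eq {l : ℝ} {n j : ℕ} {g : G} (hj : j ≤ n) (hg : g ∈ sph S j) :
    Fn S l n g = l ^ j * desc S j (n - j) g / (sph S n).ncard := by
  have h : ∃ j, j ≤ n ∧ g ∈ sph S j := ⟨j, hj, hg⟩
  have h1 : h.choose = j := sph_unique h.choose_spec.2 hg
  unfold Fn
  rw [dif_pos h, h1]

lemma Fn_nonneg {l : ℝ} (hl : 0 < l) (n : ℕ) (g : G) : 0 ≤ Fn S l n g := by
  unfold Fn
  split_ifs with h
  · positivity
  · exact le_rfl

lemma Fn_le_one {l : ℝ} (hl : 1 < l) {n : ℕ}
    (hn : ∀ m ≤ n, ((sph S m).ncard : ℝ) / l ^ m ≤ ((sph S n).ncard : ℝ) / l ^ n) (g : G) :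
    Fn S l n g ≤ 1 := by
  have hl0 : 0 < l := by linarith
  have hpos : (0 : ℝ) < (sph S n).ncard := by
    have h0 := hn 0 (Nat.zero_le _)
    have h1 : (sph S 0).ncard = 1 := by
      rw [Set.ncard_eq_one]
      exact ⟨1, Set.eq_singleton_iff_unique_mem.mpr ⟨one_mem_sph, fun x hx => eq_one_of_sph hx⟩⟩
    rw [h1, pow_zero, Nat.cast_one, div_one] at h0
    have h2 : (0 : ℝ) < ((sph S n).ncard : ℝ) / l ^ n := by linarith
    by_contra hc
    have h3 : ((sph S n).ncard : ℝ) = 0 := le_antisymm (not_lt.mp hc) (Nat.cast_nonneg _)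
    rw [h3, zero_div] at h2
    exact lt_irrefl _ h2
  by_cases h : ∃ j, j ≤ n ∧ g ∈ sph S j
  · obtain ⟨j, hj, hg⟩ := h
    rw [Fn_eq hj hg, div_le_one hpos]
    have h1 := hn (n - j) (Nat.sub_le _ _)
    rw [div_le_div_iff₀ (pow_pos hl0 _) (pow_pos hl0 _)] at h1
    have h2 : (desc S j (n - j) g : ℝ) ≤ (sph S (n - j)).ncard := by
      exact_mod_cast desc_le hg
    have h3 : l ^ n = l ^ (n - j) * l ^ j := by rw [← pow_add]; congr 1; omega
    have h4 : l ^ j * ((sph S (n - j)).ncard : ℝ) ≤ (sph S n).ncard := by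
      have h5 : 0 < l ^ (n - j) := pow_pos hl0 _
      rw [h3] at h1
      by_contra hc
      push Not at hc
      nlinarith
    calc l ^ j * (desc S j (n - j) g : ℝ) ≤ l ^ j * ((sph S (n - j)).ncard : ℝ) :=
          mul_le_mul_of_nonneg_left h2 (pow_pos hl0 j).le
      _ ≤ _ := h4
  · unfold Fn
    rw [dif_neg h]
    exact zero_le_one

variable (S) in
/-- Indicator that `y` is a child whose letter is `s`. -/
noncomputable def ind (s y : G) : ℝ :=
  open Classical in if (∃ i, y ∈ sph S (i + 1)) ∧ letter S y = s then 1 else 0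

lemma ind_nonneg (s y : G) : 0 ≤ ind S s y := by
  unfold ind; split_ifs <;> norm_num

lemma ind_sum_le (y : G) : ∑ s ∈ S, ind S s y ≤ 1 := by
  classical
  unfold ind
  by_cases h : ∃ i, y ∈ sph S (i + 1)
  · have : ∀ s ∈ S, (if (∃ i, y ∈ sph S (i + 1)) ∧ letter S y = s then (1 : ℝ) else 0) =
        if letter S y = s then 1 else 0 := by
      intro s _
      by_cases h2 : letter S y = s
      · rw [if_pos ⟨h, h2⟩, if_pos h2]
      · rw [if_neg (fun h3 => h2 h3.2), if_neg h2]
    rw [Finset.sum_congr rfl this, Finset.sum_ite_eq]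
    split_ifs <;> norm_num
  · rw [Finset.sum_eq_zero]
    · exact zero_le_one
    · intro s _
      rw [if_neg (fun h3 => h h3.1)]

lemma Fn_rel {l : ℝ} {n j : ℕ} {g : G} (hj : j + 1 ≤ n) (hg : g ∈ sph S j) :
    l * Fn S l n g = ∑ s ∈ S, ind S s (s * g) * Fn S l n (s * g) := by
  classical
  rw [Fn_eq (by omega) hg]
  have h1 : n - j = (n - (j + 1)) + 1 := by omega
  rw [h1, desc_succ, Nat.cast_sum, Finset.mul_sum, Finset.sum_div, Finset.mul_sum]
  refine Finset.sum_congr rfl fun s hs => ?_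
  by_cases hc : s * g ∈ sph S (j + 1) ∧ letter S (s * g) = s
  · rw [if_pos hc, Fn_eq hj hc.1]
    unfold ind
    rw [if_pos ⟨⟨j, hc.1⟩, hc.2⟩, pow_succ]
    ring
  · rw [if_neg hc]
    have h2 : ¬ ((∃ i, s * g ∈ sph S (i + 1)) ∧ letter S (s * g) = s) := by
      rintro ⟨⟨i, hi⟩, h3⟩
      apply hc
      have h4 := (letter_spec hi).2
      unfold par at h4
      rw [h3, inv_mul_cancel_left] at h4
      have h5 := sph_unique h4 hg
      subst h5
      exact ⟨hi, h3⟩
    unfold ind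
    rw [if_neg h2]
    simp

lemma Dom.add {f h k : G → ℝ} (hf : ∀ x, 0 ≤ f x) (h1 : Dom f h) (h2 : Dom f k) :
    Dom f (h + k) := by
  classical
  obtain ⟨S, c, hS⟩ := h1
  obtain ⟨T, d, hT⟩ := h2
  refine ⟨S ∪ T, |c| + |d|, fun x => ?_⟩
  have ha : ∑ s ∈ S, f (s⁻¹ * x) ≤ ∑ s ∈ S ∪ T, f (s⁻¹ * x) :=
    Finset.sum_le_sum_of_subset_of_nonneg Finset.subset_union_left fun _ _ _ => hf _
  have hb : ∑ s ∈ T, f (s⁻¹ * x) ≤ ∑ s ∈ S ∪ T, f (s⁻¹ * x) :=
    Finset.sum_le_sum_of_subset_of_nonneg Finset.subset_union_right fun _ _ _ => hf _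
  have hS0 : 0 ≤ ∑ s ∈ S, f (s⁻¹ * x) := Finset.sum_nonneg fun _ _ => hf _
  have hT0 : 0 ≤ ∑ s ∈ T, f (s⁻¹ * x) := Finset.sum_nonneg fun _ _ => hf _
  calc |(h + k) x| ≤ |h x| + |k x| := abs_add_le _ _
    _ ≤ c * ∑ s ∈ S, f (s⁻¹ * x) + d * ∑ s ∈ T, f (s⁻¹ * x) := add_le_add (hS x) (hT x)
    _ ≤ |c| * ∑ s ∈ S ∪ T, f (s⁻¹ * x) + |d| * ∑ s ∈ S ∪ T, f (s⁻¹ * x) := by
        refine add_le_add ?_ ?_
        · exact mul_le_mul (le_abs_self c) ha hS0 (abs_nonneg c)
        · exact mul_le_mul (le_abs_self d) hb hT0 (abs_nonneg d)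
    _ = _ := by ring

lemma Dom.of_le {f h : G → ℝ} (g : G) (hh : ∀ x, |h x| ≤ f (g⁻¹ * x)) : Dom f h :=
  ⟨{g}, 1, fun x => by rw [Finset.sum_singleton, one_mul]; exact hh x⟩

lemma Dom.sum {f : G → ℝ} (hf : ∀ x, 0 ≤ f x) {ι : Type*} (T : Finset ι) (h : ι → G → ℝ)
    (hh : ∀ i ∈ T, Dom f (h i)) : Dom f (∑ i ∈ T, h i) := by
  classical
  induction T using Finset.induction_on with
  | empty =>
    refine ⟨∅, 0, fun x => ?_⟩
    simp
  | insert a T ha ih =>
    rw [Finset.sum_insert ha]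
    exact Dom.add hf (hh a (Finset.mem_insert_self _ _))
      (ih fun i hi => hh i (Finset.mem_insert_of_mem hi))

lemma phi_sum {f : G → ℝ} (hf : ∀ x, 0 ≤ f x) {φ : (G → ℝ) → ℝ}
    (hadd : ∀ h k : G → ℝ, Dom f h → Dom f k → φ (h + k) = φ h + φ k)
    {ι : Type*} (T : Finset ι) (h : ι → G → ℝ)
    (hh : ∀ i ∈ T, Dom f (h i)) : φ (∑ i ∈ T, h i) = ∑ i ∈ T, φ (h i) := by
  classical
  induction T using Finset.induction_on with
  | empty =>
    rw [Finset.sum_empty, Finset.sum_empty]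
    have h0 : Dom f (0 : G → ℝ) := ⟨∅, 0, fun x => by simp⟩
    have := hadd 0 0 h0 h0
    rw [add_zero] at this
    linarith
  | insert a T ha ih =>
    rw [Finset.sum_insert ha, Finset.sum_insert ha, hadd _ _ (hh a (Finset.mem_insert_self _ _))
      (Dom.sum hf T h fun i hi => hh i (Finset.mem_insert_of_mem hi)),
      ih fun i hi => hh i (Finset.mem_insert_of_mem hi)]

theorem growth_of_cone (h : ConeProperty G) : LocSubexp G := by
  classical
  intro S c hc
  by_contra hcon
  rw [Filter.not_eventually] at hcon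
  set l : ℝ := (1 + c) / 2 with hl_def
  have hl : 1 < l := by rw [hl_def]; linarith
  have hlc : l < c := by rw [hl_def]; linarith
  have hl0 : 0 < l := by linarith
  have hrec : ∃ᶠ n in atTop, ∀ m ≤ n,
      ((sph S m).ncard : ℝ) / l ^ m ≤ ((sph S n).ncard : ℝ) / l ^ n := by
    refine exists_records (p := fun n => (((S : Set G) ^ n).ncard : ℝ)) hl hlc ?_ ?_
    · intro n
      have hsub : ((S : Set G) ^ n) ⊆ ⋃ m ∈ Finset.range (n + 1), sph S m := by
        intro g hg
        have hex : ∃ m, g ∈ (S : Set G) ^ m := ⟨n, hg⟩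
        refine Set.mem_iUnion₂.mpr ⟨Nat.find hex, ?_, ?_⟩
        · exact Finset.mem_range.mpr (Nat.lt_succ_of_le (Nat.find_min' hex hg))
        · exact ⟨Nat.find_spec hex, fun m hm => Nat.find_min hex hm⟩
      have h1 : ((S : Set G) ^ n).ncard ≤ ∑ m ∈ Finset.range (n + 1), (sph S m).ncard := by
        refine (Set.ncard_le_ncard hsub ?_).trans ?_
        · exact Set.Finite.biUnion (Finset.finite_toSet _) fun m _ => sph_finite m
        · exact Finset.set_ncard_biUnion_le _ _
      have h2 : (((S : Set G) ^ n).ncard : ℝ) ≤ ((∑ m ∈ Finset.range (n + 1),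
        (sph S m).ncard : ℕ) : ℝ) := by exact_mod_cast h1
      rw [Nat.cast_sum] at h2
      exact h2
    · exact hcon.mono fun n hn => not_le.mp hn
  set R : Set ℕ := {n | ∀ m ≤ n, ((sph S m).ncard : ℝ) / l ^ m ≤ ((sph S n).ncard : ℝ) / l ^ n}
    with hR_def
  have hne : NeBot (atTop ⊓ 𝓟 R) := frequently_iff_neBot.mp hrec
  let U : Ultrafilter ℕ := Ultrafilter.of (atTop ⊓ 𝓟 R)
  have hU : (U : Filter ℕ) ≤ atTop ⊓ 𝓟 R := Ultrafilter.of_le _
  have hUR : ∀ᶠ n in (U : Filter ℕ), n ∈ R := (hU.trans inf_le_right) (mem_principal_self R)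
  have hUt : (U : Filter ℕ) ≤ atTop := hU.trans inf_le_left
  have hlim : ∀ g : G, ∃ L ∈ Set.Icc (0 : ℝ) 1, Tendsto (fun n => Fn S l n g) U (𝓝 L) := by
    intro g
    have h1 : (Set.Icc (0 : ℝ) 1) ∈ U.map (fun n => Fn S l n g) := by
      show ∀ᶠ n in (U : Filter ℕ), Fn S l n g ∈ Set.Icc (0 : ℝ) 1
      filter_upwards [hUR] with n hn
      exact ⟨Fn_nonneg hl0 n g, Fn_le_one hl hn g⟩
    obtain ⟨L, hL, hL'⟩ := isCompact_Icc.ultrafilter_le_nhds' _ h1
    exact ⟨L, hL, hL'⟩
  choose f hf01 hft using hlim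
  have hf0 : ∀ x, 0 ≤ f x := fun x => (hf01 x).1
  have hf1 : ∀ x, f x ≤ 1 := fun x => (hf01 x).2
  have hfone : f 1 = 1 := by
    have h1 : Tendsto (fun n => Fn S l n (1 : G)) U (𝓝 1) := by
      refine tendsto_const_nhds.congr' ?_
      filter_upwards [hUR] with n hn
      rw [Fn_eq (Nat.zero_le n) one_mem_sph, pow_zero, one_mul, Nat.sub_zero, desc_one,
        div_self]
      have h0 := hn 0 (Nat.zero_le _)
      have h2 : (sph S 0).ncard = 1 := by
        rw [Set.ncard_eq_one]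
        exact ⟨1, Set.eq_singleton_iff_unique_mem.mpr
          ⟨one_mem_sph, fun x hx => eq_one_of_sph hx⟩⟩
      rw [h2, pow_zero, Nat.cast_one, div_one] at h0
      intro h3
      rw [h3, zero_div] at h0
      linarith
    exact tendsto_nhds_unique (hft 1) h1
  have hrel : ∀ g, l * f g ≤ ∑ s ∈ S, ind S s (s * g) * f (s * g) := by
    intro g
    by_cases hg : ∃ j, g ∈ sph S j
    · obtain ⟨j, hg⟩ := hg
      have h1 : Tendsto (fun n => l * Fn S l n g) U (𝓝 (l * f g)) := (hft g).const_mul l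
      have h2 : Tendsto (fun n => ∑ s ∈ S, ind S s (s * g) * Fn S l n (s * g)) U
          (𝓝 (∑ s ∈ S, ind S s (s * g) * f (s * g))) :=
        tendsto_finsetSum _ fun s _ => (hft (s * g)).const_mul _
      have h3 : ∀ᶠ n in (U : Filter ℕ), j + 1 ≤ n := hUt (eventually_ge_atTop _)
      refine le_of_tendsto_of_tendsto h1 h2 ?_
      filter_upwards [h3] with n hn
      exact (Fn_rel hn hg).le
    · have h1 : f g = 0 := by
        have h2 : Tendsto (fun n => Fn S l n g) U (𝓝 0) := by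
          refine tendsto_const_nhds.congr' (Eventually.of_forall fun n => ?_)
          show 0 = Fn S l n g
          unfold Fn
          rw [dif_neg]
          rintro ⟨j, _, hj⟩
          exact hg ⟨j, hj⟩
        exact tendsto_nhds_unique (hft g) h2
      rw [h1, mul_zero]
      exact Finset.sum_nonneg fun s _ => mul_nonneg (ind_nonneg _ _) (hf0 _)
  obtain ⟨φ, hadd, hsmul, hpos, hinv, hφf⟩ := h f hf0 ⟨1, hf1⟩ ⟨1, by rw [hfone]; norm_num⟩
  -- the pieces
  let P : G → G → ℝ := fun s y => ind S s y * f y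
  have hind1 : ∀ s ∈ S, ∀ y, ind S s y ≤ 1 := by
    intro s _ y
    unfold ind; split_ifs <;> norm_num
  have hP0 : ∀ s y, 0 ≤ P s y := fun s y => mul_nonneg (ind_nonneg _ _) (hf0 _)
  have hPf : ∀ s ∈ S, ∀ y, P s y ≤ f y := fun s hs y => by
    show ind S s y * f y ≤ f y
    nlinarith [hind1 s hs y, hf0 y]
  have hDP : ∀ s ∈ S, Dom f (P s) := fun s hs => Dom.of_le 1 fun x => by
    rw [abs_of_nonneg (hP0 s x), inv_one, one_mul]; exact hPf s hs x
  have hDP' : ∀ s ∈ S, Dom f (fun x => P s (s * x)) := fun s hs => Dom.of_le s⁻¹ fun x => by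
    rw [abs_of_nonneg (hP0 s _), inv_inv]; exact hPf s hs _
  have hDf : Dom f f := Dom.of_le 1 fun x => by
    rw [abs_of_nonneg (hf0 x), inv_one, one_mul]
  have hinv' : ∀ s ∈ S, φ (fun x => P s (s * x)) = φ (P s) := by
    intro s hs
    have := hinv s⁻¹ (P s) (hDP s hs)
    rw [inv_inv] at this
    exact this
  have hmono : ∀ a b : G → ℝ, Dom f a → Dom f b → (∀ x, a x ≤ b x) → φ a ≤ φ b := by
    intro a b ha hb hab
    have hD : Dom f (b + (-1 : ℝ) • a) := by
      refine Dom.add hf0 hb ?_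
      obtain ⟨T, d, hT⟩ := ha
      refine ⟨T, d, fun x => ?_⟩
      rw [Pi.smul_apply, smul_eq_mul, abs_mul, abs_neg, abs_one, one_mul]
      exact hT x
    have hD' : Dom f ((-1 : ℝ) • a) := by
      obtain ⟨T, d, hT⟩ := ha
      refine ⟨T, d, fun x => ?_⟩
      rw [Pi.smul_apply, smul_eq_mul, abs_mul, abs_neg, abs_one, one_mul]
      exact hT x
    have h1 := hpos _ hD fun x => by
      rw [Pi.add_apply, Pi.smul_apply, smul_eq_mul]
      linarith [hab x]
    rw [hadd _ _ hb hD', hsmul _ _ ha] at h1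
    linarith
  have h1 : φ (l • f) ≤ φ (∑ s ∈ S, fun x => P s (s * x)) := by
    refine hmono _ _ ?_ (Dom.sum hf0 _ _ hDP') fun x => ?_
    · refine ⟨{1}, l, fun x => ?_⟩
      rw [Finset.sum_singleton, inv_one, one_mul, Pi.smul_apply, smul_eq_mul,
        abs_of_nonneg (mul_nonneg hl0.le (hf0 x))]
    · rw [Finset.sum_apply, Pi.smul_apply, smul_eq_mul]
      exact hrel x
  have h2 : φ (∑ s ∈ S, P s) ≤ φ f := by
    refine hmono _ _ (Dom.sum hf0 _ _ hDP) hDf fun x => ?_
    rw [Finset.sum_apply]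
    show ∑ s ∈ S, ind S s x * f x ≤ f x
    rw [← Finset.sum_mul]
    nlinarith [ind_sum_le (S := S) x, hf0 x]
  rw [phi_sum hf0 hadd _ _ hDP', Finset.sum_congr rfl hinv', ← phi_sum hf0 hadd _ _ hDP,
    hsmul _ _ hDf, hφf] at h1
  rw [hφf] at h2
  linarith

end Forward

section Backward

variable {G : Type*} [Group G] [DecidableEq G]

/-- Sum of `h` over the translate of `X` to `x0`. -/
noncomputable def Av (x0 : G) (X : Finset G) (h : G → ℝ) : ℝ := ∑ g ∈ X, h (g * x0)

lemma Av_abs_le {x0 : G} {X : Finset G} {f h : G → ℝ} (hf : ∀ x, 0 ≤ f x) {T : Finset G} {c : ℝ}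
    (hh : ∀ x, |h x| ≤ c * ∑ s ∈ T, f (s⁻¹ * x)) {Y : Finset G}
    (hY : ∀ t ∈ T, ∀ g ∈ X, t⁻¹ * g ∈ Y) :
    Av x0 X (fun x => |h x|) ≤ |c| * (T.card * Av x0 Y f) := by
  unfold Av
  calc ∑ g ∈ X, |h (g * x0)| ≤ ∑ g ∈ X, |c| * ∑ t ∈ T, f (t⁻¹ * (g * x0)) := by
        refine Finset.sum_le_sum fun g _ => (hh _).trans ?_
        exact mul_le_mul_of_nonneg_right (le_abs_self c) (Finset.sum_nonneg fun _ _ => hf _)
    _ = |c| * ∑ t ∈ T, ∑ g ∈ X, f (t⁻¹ * (g * x0)) := by
        rw [← Finset.mul_sum, Finset.sum_comm]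
    _ ≤ |c| * ∑ t ∈ T, ∑ g ∈ Y, f (g * x0) := by
        refine mul_le_mul_of_nonneg_left ?_ (abs_nonneg c)
        refine Finset.sum_le_sum fun t ht => ?_
        have h1 : ∑ g ∈ X, f (t⁻¹ * (g * x0)) = ∑ g ∈ X.image (fun g => t⁻¹ * g), f (g * x0) := by
          rw [Finset.sum_image]
          · exact Finset.sum_congr rfl fun g _ => by rw [mul_assoc]
          · intro a _ b _ hab
            exact mul_left_cancel hab
        rw [h1]
        refine Finset.sum_le_sum_of_subset_of_nonneg ?_ fun _ _ _ => hf _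
        intro y hy
        obtain ⟨g, hg, rfl⟩ := Finset.mem_image.mp hy
        exact hY t ht g hg
    _ = |c| * (T.card * ∑ g ∈ Y, f (g * x0)) := by
        rw [Finset.sum_const, nsmul_eq_mul]

lemma exists_good {S : Finset G} (h1 : (1 : G) ∈ S) (hS : LocSubexp G) {f : G → ℝ}
    (hf : ∀ x, 0 ≤ f x) {M : ℝ} (hM : ∀ x, f x ≤ M) {x0 : G} (hx0 : 0 < f x0) {ε : ℝ}
    (hε : 0 < ε) : ∃ k, Av x0 (S ^ (k + 4)) f ≤ (1 + ε) * Av x0 (S ^ k) f := by
  by_contra hcon
  push Not at hcon
  have hlow : ∀ j : ℕ, (1 + ε) ^ j * f x0 ≤ Av x0 (S ^ (4 * j)) f := by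
    intro j
    induction j with
    | zero =>
      rw [pow_zero, one_mul, mul_zero, pow_zero]
      unfold Av
      rw [← Finset.singleton_one, Finset.sum_singleton, one_mul]
    | succ j ih =>
      have h2 := hcon (4 * j)
      have h3 : 4 * (j + 1) = 4 * j + 4 := by ring
      rw [h3, pow_succ]
      nlinarith
  have hup : ∀ n : ℕ, Av x0 (S ^ n) f ≤ (S ^ n).card * M := by
    intro n
    unfold Av
    rw [← nsmul_eq_mul]
    exact Finset.sum_le_card_nsmul _ _ _ fun g _ => hM _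
  have hM0 : 0 < M := lt_of_lt_of_le hx0 (hM x0)
  have hev := hS (S ^ 4) (1 + ε / 2) (by linarith)
  have hcard : ∀ j : ℕ, (((S ^ 4 : Finset G) : Set G) ^ j).ncard = (S ^ (4 * j)).card := by
    intro j
    rw [← Finset.coe_pow, Set.ncard_coe_finset, pow_mul]
  have htend : Tendsto (fun n : ℕ => ((1 + ε) / (1 + ε / 2)) ^ n) atTop atTop :=
    tendsto_pow_atTop_atTop_of_one_lt ((one_lt_div (by linarith)).mpr (by linarith))
  have hev2 : ∀ᶠ n in atTop, M / f x0 + 1 ≤ ((1 + ε) / (1 + ε / 2)) ^ n :=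
    htend.eventually_ge_atTop _
  obtain ⟨j, hj1, hj2⟩ := (hev.and hev2).exists
  rw [hcard] at hj1
  have h2 := hlow j
  have h3 := hup (4 * j)
  have hp : 0 < (1 + ε / 2) ^ j := pow_pos (by linarith) j
  have h4 : (1 + ε) ^ j * f x0 ≤ (1 + ε / 2) ^ j * M :=
    h2.trans (h3.trans (mul_le_mul_of_nonneg_right hj1 hM0.le))
  rw [div_pow, le_div_iff₀ hp] at hj2
  have h5 : (M / f x0 + 1) * f x0 = M + f x0 := by field_simp
  have h6 : (M / f x0 + 1) * (1 + ε / 2) ^ j * f x0 ≤ (1 + ε) ^ j * f x0 :=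
    mul_le_mul_of_nonneg_right hj2 hx0.le
  have h7 : (M / f x0 + 1) * (1 + ε / 2) ^ j * f x0 = (M + f x0) * (1 + ε / 2) ^ j := by
    rw [← h5]; ring
  rw [h7] at h6
  nlinarith

theorem cone_of_growth (hG : LocSubexp G) : ConeProperty G := by
  rintro f hf ⟨M, hM⟩ ⟨x0, hx0⟩
  have hx0' : 0 < f x0 := lt_of_le_of_ne (hf x0) (Ne.symm hx0)
  let SS : Finset G → Finset G := fun T => T ∪ T⁻¹ ∪ {1}
  have hone : ∀ T, (1 : G) ∈ SS T := fun T => Finset.mem_union_right _ (Finset.mem_singleton_self _)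
  have hmem : ∀ T, ∀ t ∈ T, t ∈ SS T := fun T t ht =>
    Finset.mem_union_left _ (Finset.mem_union_left _ ht)
  have hinvm : ∀ T, ∀ t ∈ T, t⁻¹ ∈ SS T := fun T t ht =>
    Finset.mem_union_left _ (Finset.mem_union_right _ (Finset.inv_mem_inv ht))
  have hmono : ∀ T, ∀ {a b : ℕ}, a ≤ b → (SS T) ^ a ⊆ (SS T) ^ b := fun T a b hab =>
    Finset.pow_subset_pow_right (hone T) hab
  have hk : ∀ i : Finset G × ℕ, ∃ k, Av x0 ((SS i.1) ^ (k + 4)) f ≤
      (1 + 1 / ((i.2 : ℝ) + 1)) * Av x0 ((SS i.1) ^ k) f := fun i =>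
    exists_good (hone i.1) hG hf hM hx0' (by positivity)
  choose kk hkk using hk
  have hAvpos : ∀ T n, 0 < Av x0 ((SS T) ^ n) f := by
    intro T n
    have h1 : (1 : G) ∈ (SS T) ^ n := Finset.one_mem_pow (hone T)
    unfold Av
    refine Finset.sum_pos' (fun _ _ => hf _) ⟨1, h1, ?_⟩
    rw [one_mul]; exact hx0'
  have hAvmono : ∀ T, ∀ {a b : ℕ}, a ≤ b → Av x0 ((SS T) ^ a) f ≤ Av x0 ((SS T) ^ b) f := by
    intro T a b hab
    unfold Av
    exact Finset.sum_le_sum_of_subset_of_nonneg (hmono T hab) fun _ _ _ => hf _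
  let φi : Finset G × ℕ → (G → ℝ) → ℝ := fun i h =>
    Av x0 ((SS i.1) ^ (kk i + 2)) h / Av x0 ((SS i.1) ^ (kk i + 2)) f
  let U : Ultrafilter (Finset G × ℕ) := Ultrafilter.of atTop
  have hU : (U : Filter (Finset G × ℕ)) ≤ atTop := Ultrafilter.of_le _
  let φ : (G → ℝ) → ℝ := fun h => limUnder (U : Filter (Finset G × ℕ)) (fun i => φi i h)
  -- existence of the limit
  have hlim : ∀ h, Dom f h → Tendsto (fun i => φi i h) U (𝓝 (φ h)) := by
    rintro h ⟨T0, c, hc⟩
    have hbd : ∀ᶠ i in (U : Filter (Finset G × ℕ)), φi i h ∈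
        Set.Icc (-(|c| * (T0.card * 2))) (|c| * (T0.card * 2)) := by
      filter_upwards [hU (eventually_ge_atTop (T0, 0))] with i hi
      have hT : T0 ⊆ i.1 := hi.1
      rw [Set.mem_Icc, ← abs_le]
      have h1 : |Av x0 ((SS i.1) ^ (kk i + 2)) h| ≤
          |c| * (T0.card * Av x0 ((SS i.1) ^ (kk i + 4)) f) := by
        refine le_trans ?_ (Av_abs_le (x0 := x0) (X := (SS i.1) ^ (kk i + 2)) hf hc
          (Y := (SS i.1) ^ (kk i + 4)) ?_)
        · exact Finset.abs_sum_le_sum_abs _ _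
        · intro t ht g hg
          refine hmono i.1 (show kk i + 3 ≤ kk i + 4 by omega) ?_
          rw [pow_succ' _ (kk i + 2)]
          exact Finset.mul_mem_mul (hinvm _ t (hT ht)) hg
      have h2 := hkk i
      have h3 : (1 : ℝ) / ((i.2 : ℝ) + 1) ≤ 1 := by
        rw [div_le_one (by positivity)]
        have : (0 : ℝ) ≤ i.2 := Nat.cast_nonneg _
        linarith
      have h4 : Av x0 ((SS i.1) ^ (kk i + 4)) f ≤ 2 * Av x0 ((SS i.1) ^ (kk i + 2)) f := by
        have h5 := hAvmono i.1 (show kk i ≤ kk i + 2 by omega)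
        have h6 := hAvpos i.1 (kk i)
        nlinarith
      show |Av x0 ((SS i.1) ^ (kk i + 2)) h / Av x0 ((SS i.1) ^ (kk i + 2)) f| ≤ _
      rw [abs_div, abs_of_pos (hAvpos i.1 _), div_le_iff₀ (hAvpos i.1 _)]
      refine h1.trans ?_
      rw [mul_assoc, mul_assoc]
      refine mul_le_mul_of_nonneg_left ?_ (abs_nonneg c)
      exact mul_le_mul_of_nonneg_left h4 (Nat.cast_nonneg _)
    have h1 : Set.Icc (-(|c| * (T0.card * 2 : ℝ))) (|c| * (T0.card * 2)) ∈
        U.map (fun i => φi i h) := hbd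
    obtain ⟨L, _, hL'⟩ := isCompact_Icc.ultrafilter_le_nhds' _ h1
    exact tendsto_nhds_limUnder ⟨L, hL'⟩
  have hone' : ∀ i, φi i f = 1 := fun i => div_self (hAvpos i.1 _).ne'
  refine ⟨φ, ?_, ?_, ?_, ?_, ?_⟩
  · intro h k hh hk
    have h1 := (hlim h hh).add (hlim k hk)
    have h2 : (fun i => φi i h + φi i k) = fun i => φi i (h + k) := by
      funext i
      show _ / _ + _ / _ = _ / _
      rw [← add_div]
      congr 1
      unfold Av
      rw [← Finset.sum_add_distrib]
      rfl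
    rw [h2] at h1
    exact h1.limUnder_eq
  · intro a h hh
    have h1 := (hlim h hh).const_mul a
    have h2 : (fun i => a * φi i h) = fun i => φi i (a • h) := by
      funext i
      show a * (_ / _) = _ / _
      rw [← mul_div_assoc]
      congr 1
      unfold Av
      rw [Finset.mul_sum]
      rfl
    rw [h2] at h1
    exact h1.limUnder_eq
  · intro h hh h0
    refine ge_of_tendsto (hlim h hh) (Eventually.of_forall fun i => ?_)
    exact div_nonneg (Finset.sum_nonneg fun _ _ => h0 _) (hAvpos i.1 _).le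
  · intro s h hh
    obtain ⟨T0, c, hc⟩ := hh
    have hdiff : Tendsto (fun i => φi i (fun x => h (s⁻¹ * x)) - φi i h) U (𝓝 0) := by
      have hb : ∀ᶠ i in (U : Filter (Finset G × ℕ)),
          |φi i (fun x => h (s⁻¹ * x)) - φi i h| ≤
            2 * (|c| * T0.card) * (1 / ((i.2 : ℝ) + 1)) := by
        filter_upwards [hU (eventually_ge_atTop (insert s T0, 0))] with i hi
        have hT : insert s T0 ⊆ i.1 := hi.1
        have hsT : s ∈ i.1 := hT (Finset.mem_insert_self _ _)
        have hT0 : ∀ t ∈ T0, t ∈ i.1 := fun t ht => hT (Finset.mem_insert_of_mem ht)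
        set S := SS i.1 with hSdef
        set n := kk i with hn
        set X : Finset G := (S ^ (n + 2)).image (fun g => s⁻¹ * g) with hX
        have e1 : Av x0 (S ^ (n + 2)) (fun x => h (s⁻¹ * x)) = Av x0 X h := by
          unfold Av
          rw [hX, Finset.sum_image]
          · exact Finset.sum_congr rfl fun g _ => by rw [mul_assoc]
          · intro a _ b _ hab
            exact mul_left_cancel hab
        have hlow1 : S ^ (n + 1) ⊆ X := by
          intro g hg
          rw [hX, Finset.mem_image]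
          refine ⟨s * g, ?_, by group⟩
          rw [pow_succ' _ (n + 1)]
          exact Finset.mul_mem_mul (hmem _ s hsT) hg
        have hlow2 : S ^ (n + 1) ⊆ S ^ (n + 2) := hmono _ (by omega)
        have hup1 : X ⊆ S ^ (n + 3) := by
          intro g hg
          rw [hX, Finset.mem_image] at hg
          obtain ⟨g', hg', rfl⟩ := hg
          rw [pow_succ' _ (n + 2)]
          exact Finset.mul_mem_mul (hinvm _ s hsT) hg'
        have hup2 : S ^ (n + 2) ⊆ S ^ (n + 3) := hmono _ (by omega)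
        have key : ∀ Z : Finset G, S ^ (n + 1) ⊆ Z → Z ⊆ S ^ (n + 3) →
            |Av x0 Z h - Av x0 (S ^ (n + 1)) h| ≤
              |c| * (T0.card * (Av x0 (S ^ (n + 4)) f - Av x0 (S ^ n) f)) := by
          intro Z hZ1 hZ2
          have h1 : Av x0 Z h - Av x0 (S ^ (n + 1)) h = Av x0 (Z \ S ^ (n + 1)) h := by
            unfold Av
            rw [← Finset.sum_sdiff hZ1]; ring
          have h2 : Av x0 (S ^ (n + 4)) f - Av x0 (S ^ n) f = Av x0 (S ^ (n + 4) \ S ^ n) f := by
            unfold Av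
            rw [← Finset.sum_sdiff (hmono i.1 (show n ≤ n + 4 by omega))]; ring
          rw [h1, h2]
          refine le_trans ?_ (Av_abs_le (x0 := x0) (X := Z \ S ^ (n + 1)) hf hc
            (Y := S ^ (n + 4) \ S ^ n) ?_)
          · exact Finset.abs_sum_le_sum_abs _ _
          · intro t ht g hg
            rw [Finset.mem_sdiff] at hg ⊢
            refine ⟨?_, fun hgn => hg.2 ?_⟩
            · rw [pow_succ' _ (n + 3)]
              exact Finset.mul_mem_mul (hinvm _ t (hT0 t ht)) (hZ2 hg.1)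
            · have : g = t * (t⁻¹ * g) := by group
              rw [this, pow_succ']
              exact Finset.mul_mem_mul (hmem _ t (hT0 t ht)) hgn
        have k1 := key X hlow1 hup1
        have k2 := key _ hlow2 hup2
        have h3 := hkk i
        rw [← hSdef, ← hn] at h3
        have hpos := hAvpos i.1 (n + 2)
        have hposn := hAvpos i.1 n
        have hmn := hAvmono i.1 (show n ≤ n + 2 by omega)
        rw [← hSdef] at hpos hposn hmn
        have h4 : Av x0 (S ^ (n + 4)) f - Av x0 (S ^ n) f ≤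
            (1 / ((i.2 : ℝ) + 1)) * Av x0 (S ^ (n + 2)) f := by
          have h5 : (0 : ℝ) ≤ 1 / ((i.2 : ℝ) + 1) := by positivity
          nlinarith
        show |Av x0 (S ^ (n + 2)) (fun x => h (s⁻¹ * x)) / Av x0 (S ^ (n + 2)) f -
          Av x0 (S ^ (n + 2)) h / Av x0 (S ^ (n + 2)) f| ≤ _
        rw [← sub_div, abs_div, abs_of_pos hpos, div_le_iff₀ hpos, e1]
        have h6 : |Av x0 X h - Av x0 (S ^ (n + 2)) h| ≤
            2 * (|c| * (T0.card * (Av x0 (S ^ (n + 4)) f - Av x0 (S ^ n) f))) := by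
          have h7 : Av x0 X h - Av x0 (S ^ (n + 2)) h =
            (Av x0 X h - Av x0 (S ^ (n + 1)) h) -
              (Av x0 (S ^ (n + 2)) h - Av x0 (S ^ (n + 1)) h) := by ring
          rw [h7]
          refine (abs_sub _ _).trans ?_
          linarith
        refine h6.trans ?_
        have h8 : 0 ≤ 2 * (|c| * (T0.card : ℝ)) := by positivity
        calc 2 * (|c| * (T0.card * (Av x0 (S ^ (n + 4)) f - Av x0 (S ^ n) f)))
            = 2 * (|c| * (T0.card : ℝ)) * (Av x0 (S ^ (n + 4)) f - Av x0 (S ^ n) f) := by ring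
          _ ≤ 2 * (|c| * (T0.card : ℝ)) * ((1 / ((i.2 : ℝ) + 1)) * Av x0 (S ^ (n + 2)) f) :=
              mul_le_mul_of_nonneg_left h4 h8
          _ = _ := by ring
      have ht : Tendsto (fun i : Finset G × ℕ => 2 * (|c| * T0.card) * (1 / ((i.2 : ℝ) + 1)))
          U (𝓝 0) := by
        have h1 : Tendsto (fun i : Finset G × ℕ => i.2) atTop atTop :=
          tendsto_atTop.mpr fun b => by
            filter_upwards [eventually_ge_atTop ((∅ : Finset G), b)] with i hi
            exact hi.2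
        have h2 : Tendsto (fun i : Finset G × ℕ => (1 / ((i.2 : ℝ) + 1))) U (𝓝 0) :=
          (tendsto_one_div_add_atTop_nhds_zero_nat.comp h1).mono_left hU
        have h3 := h2.const_mul (2 * (|c| * (T0.card : ℝ)))
        rw [mul_zero] at h3
        exact h3
      exact squeeze_zero_norm' hb ht
    have h1 := hdiff.add (hlim h ⟨T0, c, hc⟩)
    rw [zero_add] at h1
    have h2 : (fun i => φi i (fun x => h (s⁻¹ * x)) - φi i h + φi i h) =
        fun i => φi i (fun x => h (s⁻¹ * x)) := by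
      funext i; ring
    rw [h2] at h1
    exact h1.limUnder_eq
  · have h1 : Tendsto (fun i => φi i f) U (𝓝 1) := by
      refine tendsto_const_nhds.congr fun i => ?_
      rw [hone' i]
    exact h1.limUnder_eq

end Backward

/-- The fixed point property for cones is equivalent to locally subexponential growth. -/
theorem result (G : Type*) [Group G] : ConeProperty G ↔ LocSubexp G := by
  classical
  exact ⟨growth_of_cone, cone_of_growth⟩

end Pool.Agent.Results.MP_587aff_al.ConesGrowth
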