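import Pool.Agent.Results.MP_587aff_al.ConesGrowth

/-!
# The fixed point property for cones passes to direct products
-/

namespace Pool.Agent.Results.MP_587aff_al.ProductCone

open Filter Pointwise
open Pool.Agent.Results.MP_587aff_al.ConesGrowth

theorem locSubexp_prod {G H : Type*} [Group G] [Group H] (hG : LocSubexp G) (hH : LocSubexp H) :
    LocSubexp (G × H) := by
  classical
  intro S c hc
  have hs : 1 < Real.sqrt c := by
    rw [Real.lt_sqrt (by norm_num)]; simpa using hc
  filter_upwards [hG (S.image Prod.fst) _ hs, hH (S.image Prod.snd) _ hs] with n h1 h2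
  have hsub : ((S : Set (G × H)) ^ n) ⊆
      (((S.image Prod.fst : Finset G) : Set G) ^ n) ×ˢ
        (((S.image Prod.snd : Finset H) : Set H) ^ n) := by
    intro g hg
    refine ⟨?_, ?_⟩
    · have h3 : (MonoidHom.fst G H) '' ((S : Set (G × H)) ^ n) =
          ((MonoidHom.fst G H) '' (S : Set (G × H))) ^ n := Set.image_pow _ _ _
      have h4 : g.1 ∈ (MonoidHom.fst G H) '' ((S : Set (G × H)) ^ n) := ⟨g, hg, rfl⟩
      rw [h3] at h4
      rw [Finset.coe_image]
      exact h4
    · have h3 : (MonoidHom.snd G H) '' ((S : Set (G × H)) ^ n) =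
          ((MonoidHom.snd G H) '' (S : Set (G × H))) ^ n := Set.image_pow _ _ _
      have h4 : g.2 ∈ (MonoidHom.snd G H) '' ((S : Set (G × H)) ^ n) := ⟨g, hg, rfl⟩
      rw [h3] at h4
      rw [Finset.coe_image]
      exact h4
  have h3 := Set.ncard_le_ncard hsub ((pow_finite n).prod (pow_finite n))
  rw [Set.ncard_prod] at h3
  have h4 : (((S : Set (G × H)) ^ n).ncard : ℝ) ≤
      ((((S.image Prod.fst : Finset G) : Set G) ^ n).ncard : ℝ) *
        ((((S.image Prod.snd : Finset H) : Set H) ^ n).ncard : ℝ) := by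
    exact_mod_cast h3
  calc (((S : Set (G × H)) ^ n).ncard : ℝ) ≤ _ := h4
    _ ≤ Real.sqrt c ^ n * Real.sqrt c ^ n :=
        mul_le_mul h1 h2 (Nat.cast_nonneg _) (pow_nonneg (Real.sqrt_nonneg _) _)
    _ = c ^ n := by rw [← mul_pow, Real.mul_self_sqrt (by linarith)]

/-- The fixed point property for cones is preserved by direct products of two arbitrary groups. -/
theorem result (G H : Type*) [Group G] [Group H] (hG : ConeProperty G) (hH : ConeProperty H) :
    ConeProperty (G × H) :=
  (ConesGrowth.result (G × H)).mpr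
    (locSubexp_prod ((ConesGrowth.result G).mp hG) ((ConesGrowth.result H).mp hH))

end Pool.Agent.Results.MP_587aff_al.ProductCone
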